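import Pool.Agent.NPB.Proof

/-!
# Linear nonabelian Poisson brackets on free associative algebras: complete classification

The definitions are in `Pool/Agent/NPB/Defs.lean`, the proof is in `Pool/Agent/NPB/Proof.lean`.
-/

namespace Pool.Agent.Results.MP_2bcfbf_mp.Classification

open Pool.Agent.NPB

/-- **Classification of linear nonabelian Poisson brackets.**  The bracket with constants
`b_ij^k`, `b'_ij^k` is a nonabelian Poisson bracket if and only if there are a unital associative
algebra with basis `1, e_1, …, e_N`, `e_i e_j = w_ij 1 + Σ_k m_ij^k e_k`, and `v ∈ ℂ^N` with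
`b_ij^k = m_ij^k + v_j δ_ik` and `b'_ij^k = - m_ji^k - v_j δ_ik`. -/
theorem result (N : ℕ) (b b' : Fin N → Fin N → Fin N → ℂ) :
    IsNonabelianPoisson b b' ↔
      ∃ (m : Fin N → Fin N → Fin N → ℂ) (w : Fin N → Fin N → ℂ) (v : Fin N → ℂ),
        IsUnitalAssociative m w ∧
        (∀ i j k, b i j k = m i j k + (if i = k then v j else 0)) ∧
        (∀ i j k, b' i j k = - m j i k - (if i = k then v j else 0)) :=
  classification N b b'

end Pool.Agent.Results.MP_2bcfbf_mp.Classification
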